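import Pool.Agent.H18.KJ.Ex

/-!
The first Kac-Weisfeiler conjecture for restricted Lie algebras `L` with a homomorphism with solvable
kernel to a restricted Lie algebra in which `(ad x) ^ p = 0` for every ad-nilpotent `x`.
-/

set_option autoImplicit false

namespace Pool.Agent.Results.MP_9fed08_al.NilpotentHeightOne

open Module

/-- Let `L` be a restricted Lie algebra with a homomorphism with solvable kernel to a restricted Lie
algebra `M` in which `(ad x) ^ p = 0` whenever `ad x` is nilpotent.  Then the first Kac-Weisfeiler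
conjecture holds for `L`. -/
theorem result (p : ℕ) (hp : p.Prime) (K : Type) [Field K] [IsAlgClosed K] [CharP K p]
    (L : Type) [LieRing L] [LieAlgebra K L] [FiniteDimensional K L]
    (hL : ∀ x : L, ∃ y : L, (LieAlgebra.ad K L x) ^ p = LieAlgebra.ad K L y)
    (M : Type) [LieRing M] [LieAlgebra K M] [FiniteDimensional K M]
    (hM : ∀ x : M, ∃ y : M, (LieAlgebra.ad K M x) ^ p = LieAlgebra.ad K M y)
    (hN : ∀ x : M, IsNilpotent (LieAlgebra.ad K M x) → (LieAlgebra.ad K M x) ^ p = 0)
    (f : L →ₗ⁅K⁆ M) (hf : LieAlgebra.IsSolvable f.ker) :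
    ∀ d : ℕ,
      (∃ χ : Module.Dual K L,
        Module.finrank K ↥(⨅ y : L, LinearMap.ker (LinearMap.comp χ (LieAlgebra.ad K L y))) = d) →
      (∀ χ : Module.Dual K L,
        d ≤ Module.finrank K ↥(⨅ y : L, LinearMap.ker (LinearMap.comp χ (LieAlgebra.ad K L y)))) →
      (∀ (M : Type) [AddCommGroup M] [Module K M] [LieRingModule L M] [LieModule K L M],
        LieModule.IsIrreducible K L M → FiniteDimensional K M →
        Module.finrank K M ^ 2 ≤ p ^ (Module.finrank K L - d)) ∧
      (∃ (M : Type) (_ : AddCommGroup M) (_ : Module K M) (_ : LieRingModule L M)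
          (_ : LieModule K L M),
        LieModule.IsIrreducible K L M ∧ FiniteDimensional K M ∧
        Module.finrank K M ^ 2 = p ^ (Module.finrank K L - d)) := by
  haveI : Fact p.Prime := ⟨hp⟩
  exact H18.KJ.kw_height_one p K L hL M hM hN f hf

/-- The hypothesis on `f` holds for the quotient map to `L / rad L` if `dim (L / rad L) ≤ p`. -/
theorem small_quotient (p : ℕ) (hp : p.Prime) (K : Type) [Field K] [IsAlgClosed K] [CharP K p]
    (L : Type) [LieRing L] [LieAlgebra K L] [FiniteDimensional K L]
    (hL : H18.KW.Restrictable p K L)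
    (hd : finrank K (L ⧸ LieAlgebra.radical K L) ≤ p) : H18.KW.KWEquality p K L := by
  haveI : Fact p.Prime := ⟨hp⟩
  exact H18.KJ.kw_quot_le p K L hL hd

attribute [local instance 100] LieRing.ofAssociativeRing

/-- The hypothesis on `f` holds for every representation on a space of dimension at most `p` with
solvable kernel. -/
theorem small_representation (p : ℕ) (hp : p.Prime) (K : Type) [Field K] [IsAlgClosed K]
    [CharP K p] (L : Type) [LieRing L] [LieAlgebra K L] [FiniteDimensional K L]
    (hL : H18.KW.Restrictable p K L) (V : Type) [AddCommGroup V] [Module K V]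
    [FiniteDimensional K V] (hV : finrank K V ≤ p) (f : L →ₗ⁅K⁆ End K V)
    (hf : LieAlgebra.IsSolvable f.ker) : H18.KW.KWEquality p K L := by
  haveI : Fact p.Prime := ⟨hp⟩
  exact H18.KJ.kw_rep_le p K L hL V hV f hf

end Pool.Agent.Results.MP_9fed08_al.NilpotentHeightOne
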