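import Pool.Agent.H18.KW.Final

/-!
Reduction of the first Kac-Weisfeiler conjecture to restricted Lie algebras whose radical is the
centre, of dimension at most one, and whose quotient by the centre is a section of the given algebra.
-/

set_option autoImplicit false

namespace Pool.Agent.Results.MP_9fed08_al.ReductionToCentralRadical

open Module

/-- The Kac-Weisfeiler equality for `L`: if `d` is the index of `L`, every simple `L`-module `M` has
`(dim M) ^ 2 ≤ p ^ (dim L - d)` and some simple module has equality. -/
def KacWeisfeiler (p : ℕ) (K : Type) [Field K] (L : Type) [LieRing L] [LieAlgebra K L] : Prop :=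
  ∀ d : ℕ,
    (∃ χ : Module.Dual K L,
      Module.finrank K ↥(⨅ y : L, LinearMap.ker (LinearMap.comp χ (LieAlgebra.ad K L y))) = d) →
    (∀ χ : Module.Dual K L,
      d ≤ Module.finrank K ↥(⨅ y : L, LinearMap.ker (LinearMap.comp χ (LieAlgebra.ad K L y)))) →
    (∀ (M : Type) [AddCommGroup M] [Module K M] [LieRingModule L M] [LieModule K L M],
      LieModule.IsIrreducible K L M → FiniteDimensional K M →
      Module.finrank K M ^ 2 ≤ p ^ (Module.finrank K L - d)) ∧
    (∃ (M : Type) (_ : AddCommGroup M) (_ : Module K M) (_ : LieRingModule L M)
        (_ : LieModule K L M),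
      LieModule.IsIrreducible K L M ∧ FiniteDimensional K M ∧
      Module.finrank K M ^ 2 = p ^ (Module.finrank K L - d))

/-- `L` can be given the structure of a restricted Lie algebra. -/
def Restrictable (p : ℕ) (K : Type) [Field K] (L : Type) [LieRing L] [LieAlgebra K L] : Prop :=
  ∀ x : L, ∃ y : L, (LieAlgebra.ad K L x) ^ p = LieAlgebra.ad K L y

/-- Let `L` be a restricted Lie algebra over an algebraically closed field of characteristic `p`.
Assume the Kac-Weisfeiler equality for all restricted `L'` whose radical is the centre, whose centre
has dimension at most one, and for which `L' / center` is a homomorphic image of a subalgebra of `L`.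
Then the Kac-Weisfeiler equality holds for `L`. -/
theorem result (p : ℕ) (hp : p.Prime) (K : Type) [Field K] [IsAlgClosed K] [CharP K p]
    (L : Type) [LieRing L] [LieAlgebra K L] [FiniteDimensional K L]
    (hL : Restrictable p K L)
    (hyp : ∀ (L' : Type) [LieRing L'] [LieAlgebra K L'] [FiniteDimensional K L'],
      Restrictable p K L' → LieAlgebra.radical K L' = LieAlgebra.center K L' →
      finrank K (LieAlgebra.center K L') ≤ 1 →
      (∃ (H : LieSubalgebra K L) (g : H →ₗ⁅K⁆ (L' ⧸ LieAlgebra.center K L')),
        Function.Surjective g) →
      KacWeisfeiler p K L') :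
    KacWeisfeiler p K L := by
  haveI : Fact p.Prime := ⟨hp⟩
  exact H18.KW.kw_reduction p K L hL fun L' _ _ _ h1 h2 h3 h4 => hyp L' h1 h2 h3 h4

end Pool.Agent.Results.MP_9fed08_al.ReductionToCentralRadical
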