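import Pool.Agent.H66.KX.Cas

/-!
The Kac-Weisfeiler equality for restricted Lie algebras whose generic stabilizers are, up to one dimension,
spanned by `p`-th powers, elements of height one, differentials of invariants of degree `< p`, and elements
along which the functional extends to an associative algebra. The hypothesis holds if the index is at most
`3 + dim Z(L)` (`of_index`), if one stabilizer of minimal dimension is at most one-dimensional modulo `p`-th
powers and low differentials (`of_minimal`), and if generic functionals vanish on their stabilizers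
(`of_vanishing`).
-/

set_option autoImplicit false

namespace Pool.Agent.Results.MP_9fed08_al.StabilizerCriterion

open Module

section

variable {K : Type} [Field K] {L : Type} [LieRing L] [LieAlgebra K L] {n : ℕ}

/-- The stabilizer of `χ`: all `x` with `χ ⁅y, x⁆ = 0` for all `y`. -/
def stabilizer (χ : Module.Dual K L) : Submodule K L :=
  ⨅ y : L, LinearMap.ker (LinearMap.comp χ (LieAlgebra.ad K L y))

/-- The value at `χ` of the polynomial function `z` on `L*`; the variable `X_i` is the basis vector
`bas i`. -/
noncomputable def evalAt (bas : Basis (Fin n) K L) (χ : Module.Dual K L)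
    (z : MvPolynomial (Fin n) K) : K :=
  MvPolynomial.aeval (fun i => χ (bas i)) z

/-- A vector of `L` as a linear form in the symmetric algebra `S(L) = K[X_1, …, X_n]`, where `X_i` is
the basis vector `bas i`. -/
noncomputable def form (bas : Basis (Fin n) K L) (y : L) : MvPolynomial (Fin n) K :=
  ∑ k, MvPolynomial.C (bas.repr y k) * MvPolynomial.X k

/-- Poisson invariants of `S(L)`: `{x, z} = ∑ ∂z/∂X_i · ⁅x, bas i⁆ = 0` for all `x` in `L`. -/
def IsInvariant (bas : Basis (Fin n) K L) (z : MvPolynomial (Fin n) K) : Prop :=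
  ∀ x : L, ∑ i, MvPolynomial.pderiv i z * form bas ⁅x, bas i⁆ = 0

/-- The differential at the point `χ` of the polynomial function `z` on `L*`, a vector of `L`. -/
noncomputable def diffAt (bas : Basis (Fin n) K L) (χ : Module.Dual K L)
    (z : MvPolynomial (Fin n) K) : L :=
  ∑ i, evalAt bas χ (MvPolynomial.pderiv i z) • bas i

/-- `χ` extends to a linear functional `t` on an associative algebra `A` (along a Lie homomorphism
`i : L → A`) which vanishes on all commutators with `i y`. -/
def ExtendsAlong (χ : Module.Dual K L) (y : L) : Prop :=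
  ∃ (A : Type) (_ : Ring A) (_ : Algebra K A) (i : L →ₗ[K] A) (t : A →ₗ[K] K),
    (∀ x z, i ⁅x, z⁆ = i x * i z - i z * i x) ∧ (∀ x, t (i x) = χ x) ∧
      ∀ a, t (i y * a - a * i y) = 0

/-- The `p`-th powers of elements of the stabilizer of `χ`: all `y` with `ad y = (ad x)^p`, `x` in the
stabilizer (this includes the centre of `L`). -/
def powers (p : ℕ) (χ : Module.Dual K L) : Set L :=
  {y : L | ∃ x ∈ stabilizer χ, (LieAlgebra.ad K L x) ^ p = LieAlgebra.ad K L y}

/-- The differentials at `χ` of all Poisson invariants of degree less than `p`. -/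
def lowDifferentials (p : ℕ) (bas : Basis (Fin n) K L) (χ : Module.Dual K L) : Set L :=
  {y : L | ∃ z : MvPolynomial (Fin n) K, IsInvariant bas z ∧ z.totalDegree < p ∧ y = diffAt bas χ z}

/-- The span of the `p`-th powers of elements of the stabilizer, of the differentials of invariants of
degree less than `p`, of the elements along which `χ` extends to an associative algebra, and of the
elements `y` of the stabilizer with `(ad y)^p = 0`. -/
noncomputable def liftPart (p : ℕ) (bas : Basis (Fin n) K L) (χ : Module.Dual K L) :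
    Submodule K L :=
  Submodule.span K (powers p χ ∪ lowDifferentials p bas χ ∪ {y : L | ExtendsAlong χ y} ∪
    {y : L | y ∈ stabilizer χ ∧ (LieAlgebra.ad K L y) ^ p = 0})

/-- A property of functionals holds on a Zariski dense set. -/
def Densely (bas : Basis (Fin n) K L) (Q : Module.Dual K L → Prop) : Prop :=
  ∀ P : MvPolynomial (Fin n) K, P ≠ 0 → ∃ χ : Module.Dual K L, evalAt bas χ P ≠ 0 ∧ Q χ

end

section

variable {K : Type} [Field K] {L : Type} [LieRing L] [LieAlgebra K L] {n : ℕ}

private theorem inv_iff (bas : Basis (Fin n) K L) (z : MvPolynomial (Fin n) K) :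
    IsInvariant bas z ↔ H18.KE.Inv bas z := by
  constructor
  · intro h x
    rw [H18.KE.pb_apply]
    exact h x
  · intro h x
    have h2 := h x
    rw [H18.KE.pb_apply] at h2
    exact h2

private theorem low_eq (p : ℕ) (bas : Basis (Fin n) K L) (χ : Module.Dual K L) :
    lowDifferentials p bas χ = {y : L | ∃ z : MvPolynomial (Fin n) K, H18.KE.Inv bas z ∧
      z.totalDegree < p ∧ y = H18.KE.dz bas χ z} := by
  ext y
  constructor
  · rintro ⟨z, hz, hd, hy⟩
    exact ⟨z, (inv_iff bas z).1 hz, hd, hy⟩
  · rintro ⟨z, hz, hd, hy⟩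
    exact ⟨z, (inv_iff bas z).2 hz, hd, hy⟩

private theorem cyc_eq (p : ℕ) (bas : Basis (Fin n) K L) (χ : Module.Dual K L) :
    Submodule.span K (powers p χ ∪ lowDifferentials p bas χ) = H18.KE.qw p bas χ := by
  unfold H18.KE.qw
  rw [low_eq]
  rfl

private theorem lift_eq (p : ℕ) (bas : Basis (Fin n) K L) (χ : Module.Dual K L) :
    liftPart p bas χ = H18.KJ.qt p bas χ (fun y => (LieAlgebra.ad K L y) ^ p = 0) := by
  unfold liftPart H18.KJ.qt H18.KH.qq
  rw [← cyc_eq, Submodule.span_union, Submodule.span_union]
  rfl

end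

section

variable {p : ℕ} {K : Type} [Field K] [IsAlgClosed K] [CharP K p] {L : Type} [LieRing L]
  [LieAlgebra K L] [FiniteDimensional K L] {n : ℕ}

/-- The hypothesis of `result` holds if the index of `L` is at most `3 + dim Z(L)`. -/
theorem of_index (hp : p.Prime)
    (hL : ∀ x : L, ∃ y : L, (LieAlgebra.ad K L x) ^ p = LieAlgebra.ad K L y)
    (bas : Basis (Fin n) K L) (χ : Module.Dual K L)
    (h : Module.finrank K (stabilizer χ) ≤ 3 + Module.finrank K (LieAlgebra.center K L)) :
    Densely bas (fun χ => Module.finrank K (stabilizer χ) ≤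
      Module.finrank K (liftPart p bas χ) + 1) := by
  haveI : Fact p.Prime := ⟨hp⟩
  intro P hP
  rw [H66.KX.center_ker] at h
  obtain ⟨χ', h1, h2⟩ := H66.KX.dense_three p K L hL bas χ h P hP
  exact ⟨χ', h1, by beta_reduce; rw [lift_eq]; exact h2⟩

/-- The hypothesis of `result` holds if one stabilizer of minimal dimension is at most one-dimensional
modulo the span of its `p`-th powers and of the differentials of invariants of degree less than `p`. -/
theorem of_minimal (hp : p.Prime)
    (hL : ∀ x : L, ∃ y : L, (LieAlgebra.ad K L x) ^ p = LieAlgebra.ad K L y)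
    (bas : Basis (Fin n) K L) (χ₀ : Module.Dual K L)
    (hmin : ∀ χ : Module.Dual K L,
      Module.finrank K (stabilizer χ₀) ≤ Module.finrank K (stabilizer χ))
    (h : Module.finrank K (stabilizer χ₀) ≤
      Module.finrank K (Submodule.span K (powers p χ₀ ∪ lowDifferentials p bas χ₀)) + 1) :
    Densely bas (fun χ => Module.finrank K (stabilizer χ) ≤
      Module.finrank K (liftPart p bas χ) + 1) := by
  haveI : Fact p.Prime := ⟨hp⟩
  intro P hP
  rw [cyc_eq] at h
  obtain ⟨χ', h1, h2⟩ := H66.KX.dense_good p K L hL bas χ₀ hmin h P hP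
  exact ⟨χ', h1, by beta_reduce; rw [lift_eq]; exact h2⟩

/-- The hypothesis of `result` holds if densely many functionals vanish on their stabilizers. -/
theorem of_vanishing (hp : p.Prime)
    (hL : ∀ x : L, ∃ y : L, (LieAlgebra.ad K L x) ^ p = LieAlgebra.ad K L y)
    (bas : Basis (Fin n) K L) (h : Densely bas (fun χ => ∀ y ∈ stabilizer χ, χ y = 0)) :
    Densely bas (fun χ => Module.finrank K (stabilizer χ) ≤
      Module.finrank K (liftPart p bas χ) + 1) := by
  haveI : Fact p.Prime := ⟨hp⟩
  intro P hP
  obtain ⟨χ', h1, h2⟩ := H66.KX.dense_caseA p K L hL bas h P hP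
  exact ⟨χ', h1, by beta_reduce; rw [lift_eq]; exact h2⟩

end

/-- The Kac-Weisfeiler equality if, for densely many `χ`, the stabilizer of `χ` is at most one-dimensional
modulo `liftPart`. -/
theorem result (p : ℕ) (hp : p.Prime) (K : Type) [Field K] [IsAlgClosed K] [CharP K p]
    (L : Type) [LieRing L] [LieAlgebra K L] [FiniteDimensional K L]
    (hL : ∀ x : L, ∃ y : L, (LieAlgebra.ad K L x) ^ p = LieAlgebra.ad K L y)
    (n : ℕ) (bas : Basis (Fin n) K L)
    (h : Densely bas (fun χ => Module.finrank K (stabilizer χ) ≤
      Module.finrank K (liftPart p bas χ) + 1)) :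
    ∀ d : ℕ,
      (∃ χ : Module.Dual K L,
        Module.finrank K ↥(⨅ y : L, LinearMap.ker (LinearMap.comp χ (LieAlgebra.ad K L y))) = d) →
      (∀ χ : Module.Dual K L,
        d ≤ Module.finrank K ↥(⨅ y : L, LinearMap.ker (LinearMap.comp χ (LieAlgebra.ad K L y)))) →
      (∀ (M : Type) [AddCommGroup M] [Module K M] [LieRingModule L M] [LieModule K L M],
        LieModule.IsIrreducible K L M → FiniteDimensional K M →
        Module.finrank K M ^ 2 ≤ p ^ (Module.finrank K L - d)) ∧
      (∃ (M : Type) (_ : AddCommGroup M) (_ : Module K M) (_ : LieRingModule L M)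
          (_ : LieModule K L M),
        LieModule.IsIrreducible K L M ∧ FiniteDimensional K M ∧
        Module.finrank K M ^ 2 = p ^ (Module.finrank K L - d)) := by
  haveI : Fact p.Prime := ⟨hp⟩
  refine H66.KX.kw_dense_one p K L hL bas fun P hP => ?_
  obtain ⟨χ, h1, h2⟩ := h P hP
  rw [lift_eq] at h2
  exact ⟨χ, h1, h2⟩

end Pool.Agent.Results.MP_9fed08_al.StabilizerCriterion
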